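import Mathlib
import Pool.Agent.H457Adm.Defs
import Pool.Agent.H457Adm.Upper
import Pool.Agent.H457Adm.Lower6
import Pool.Agent.Y30.CG.Crit

/-!
# Gaps in infinite admissible sets: the attainable exponents, and smaller gaps at the critical one

The set of attainable exponents is `[c*, ∞)` with `c* = (5 + √17) / 2`, and at the critical
exponent more is true: there are infinite admissible sets whose gaps are at most
`n ^ c* exp (- (log n) ^ γ)`, for every `γ < γ* = log ((1 + √17) / 2) / log ((3 + √17) / 2)`.
So `n ^ c*` may be divided by every power of the logarithm, and by more.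

Proof of the second part.  The construction of the starting library has one free sequence of sizes
`p_j`.  With `log₂ p_j = 10 λ ^ j - μ ^ j`, `λ = (3 + √17) / 2` (the critical rate), both conditions
on the sizes hold with a margin of order `μ ^ j` in the exponent as soon as
`(μ - 1)² - √17 (μ - 1) + 4 > 0`, that is for `μ < (1 + √17) / 2`; and `μ ^ j` is a power
`(log n) ^ (log μ / log λ)`.
-/

set_option autoImplicit false

namespace Pool.Agent.Results.MP_a0ba93_nt.CriticalGaps

open Pool.Agent.H457Adm

/-- The set of attainable exponents is exactly `[c*, ∞)`, `c* = (5 + √17) / 2`; and for every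
`0 < γ < log ((1 + √17) / 2) / log ((3 + √17) / 2)` there is an infinite admissible set
`a 0 < a 1 < ...` of positive integers with
`a (n + 1) - a n ≤ (n + 1) ^ c* exp (- (log (n + 1)) ^ γ)` for all large `n`. -/
theorem result :
    {c : ℝ | Attainable c} = Set.Ici ((5 + √17) / 2) ∧
    ∀ γ : ℝ, 0 < γ → γ < Real.log ((1 + √17) / 2) / Real.log ((3 + √17) / 2) →
      ∃ a : ℕ → ℕ, (∀ n, 1 ≤ a n) ∧ StrictMono a ∧ Admissible (Set.range a) ∧
        ∃ n₀ : ℕ, ∀ n : ℕ, n₀ ≤ n → (a (n + 1) : ℝ) - (a n : ℝ) ≤
          ((n : ℝ) + 1) ^ ((5 + √17) / 2) * Real.exp (-(Real.log ((n : ℝ) + 1)) ^ γ) := by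
  refine ⟨?_, ?_⟩
  · ext c
    exact ⟨fun h => Lower.lower c h, fun h => Upper.attainable_upper h⟩
  · intro γ h0 h1
    obtain ⟨a, h2, h3, h4, n₀, h5⟩ := Pool.Agent.Y30.CG.critical h0 h1
    refine ⟨a, h2, h3, h4, n₀, fun n hn => (h5 n hn).trans (le_of_eq ?_)⟩
    unfold Pool.Agent.Y30.CG.gf
    push_cast
    rfl

end Pool.Agent.Results.MP_a0ba93_nt.CriticalGaps
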